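import Mathlib
import Pool.Agent.Q98.Gdel2

set_option autoImplicit false

open Filter Topology

namespace Pool.Agent.Results.MP_146262_an.DD2PGdelta

/-- The rational vector space with countable Hamel basis. -/
abbrev V : Type := ℕ →₀ ℚ

/-- `μ` is a pseudonorm on `V`. -/
def IsPseudonorm (μ : V → ℝ) : Prop :=
  (∀ v, 0 ≤ μ v) ∧ (∀ u v, μ (u + v) ≤ μ u + μ v) ∧ ∀ (q : ℚ) (v : V), μ (q • v) = |(q : ℝ)| * μ v

/-- The real Banach space `X`, with the additive map `ι : V → X`, is the completion `X_μ` of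
`V / N_μ` under the norm induced by `μ`: `‖ι v‖ = μ v` for all `v` and `ι` has dense range. This
determines `X` up to a linear isometry compatible with `ι`. -/
def Realizes (μ : V → ℝ) (X : Type) [NormedAddCommGroup X] [NormedSpace ℝ X] (ι : V →+ X) : Prop :=
  (∀ v, ‖ι v‖ = μ v) ∧ DenseRange ι

/-- `𝒫_∞`: the pseudonorms `μ` for which `X_μ` is infinite-dimensional. As a subspace of `V → ℝ` it
carries the topology of pointwise convergence. -/
def PInf : Set (V → ℝ) :=
  {μ | IsPseudonorm μ ∧ ∃ (X : Type) (_ : NormedAddCommGroup X) (_ : NormedSpace ℝ X)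
    (_ : CompleteSpace X) (ι : V →+ X), Realizes μ X ι ∧ ¬ FiniteDimensional ℝ X}

/-- The diametral diameter two property: for every relatively weakly open subset `W` of the closed
unit ball, every `x ∈ W` and every `ε > 0` there is `y ∈ W` with `‖x - y‖ ≥ 1 + ‖x‖ - ε`. -/
def HasDD2P (X : Type*) [NormedAddCommGroup X] [NormedSpace ℝ X] : Prop :=
  ∀ U : Set (WeakSpace ℝ X), IsOpen U → ∀ x : X, ‖x‖ ≤ 1 → toWeakSpace ℝ X x ∈ U →
    ∀ ε : ℝ, 0 < ε → ∃ y : X, ‖y‖ ≤ 1 ∧ toWeakSpace ℝ X y ∈ U ∧ 1 + ‖x‖ - ε ≤ ‖x - y‖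

/-- The class of the codes `μ ∈ 𝒫_∞` for which `X_μ` has the DD2P. -/
def dd2pClass : Set PInf :=
  {μ | ∃ (X : Type) (_ : NormedAddCommGroup X) (_ : NormedSpace ℝ X)
    (_ : CompleteSpace X) (ι : V →+ X), Realizes μ.1 X ι ∧ HasDD2P X}

/-- **Theorem.** The class of spaces with the diametral diameter two property is a `G_δ` subset of
`𝒫_∞`. -/
theorem result : IsGδ dd2pClass := by
  have h := Q98.Gdel.isGδ_cond (S := PInf) 1
    (fun v m' μ p => μ (p 0) < 1 ∧ 1 + μ v - 1 / ((m' : ℝ) + 1) < μ (v - p 0)) (by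
      intro v m' p
      exact (isOpen_lt (continuous_apply _) continuous_const).inter
        (isOpen_lt ((continuous_const.add (continuous_apply _)).sub continuous_const)
          (continuous_apply _)))
  convert h using 1
  ext μ
  constructor
  · rintro ⟨X, i1, i2, i3, ι, ⟨h1, h2⟩, hX⟩
    exact (Q98.Gdel.dd2p_iff μ.1 ι h1 h2).1 hX
  · intro hμ
    obtain ⟨_, X, i1, i2, i3, ι, ⟨h1, h2⟩, _⟩ := μ.2
    exact ⟨X, i1, i2, i3, ι, ⟨h1, h2⟩, (Q98.Gdel.dd2p_iff μ.1 ι h1 h2).2 hμ⟩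

end Pool.Agent.Results.MP_146262_an.DD2PGdelta
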